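import Pool.Agent.TH53.BL6
import Pool.Agent.Results.MP_f61260_nt.SmoothRootsPoly

set_option autoImplicit false

/-!
# Rémond's inequality in the strong form for numbers with a product of conjugates of small degree

All fields are subfields of `AlgebraicClosure ℚ`; subgroups of the multiplicative group are
subgroups of the unit group of `AlgebraicClosure ℚ`.
-/

namespace Pool.Agent.Results.MP_f61260_nt.ConjugateProducts

open Pool.Agent.H58P (Qb ht)
open Pool.Agent.W237.RK

/-- `β` lies in the division group of `Γ`: a positive power of `β` is an element of `Γ` -/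
def InDivisionGroup (Γ : Subgroup (AlgebraicClosure ℚ)ˣ) (β : AlgebraicClosure ℚ) : Prop :=
  ∃ n : ℕ, 0 < n ∧ ∃ g ∈ Γ, β ^ n = (g : AlgebraicClosure ℚ)

/-- the field generated by the division group of `Γ` -/
noncomputable def divisionField (Γ : Subgroup (AlgebraicClosure ℚ)ˣ) :
    IntermediateField ℚ (AlgebraicClosure ℚ) :=
  IntermediateField.adjoin ℚ {y | InDivisionGroup Γ y}

/-- the field generated over `K` by all roots of unity and by all `n`-th roots of all elements of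
`Γ`, for all positive integers `n` all of whose prime factors belong to `P` -/
noncomputable def smoothRootField (K : IntermediateField ℚ (AlgebraicClosure ℚ))
    (Γ : Subgroup (AlgebraicClosure ℚ)ˣ) (P : Finset ℕ) :
    IntermediateField ℚ (AlgebraicClosure ℚ) :=
  K ⊔ IntermediateField.adjoin ℚ
    ({y | ∃ n : ℕ, 0 < n ∧ y ^ n = 1} ∪
      {y | ∃ n : ℕ, (0 < n ∧ ∀ q : ℕ, q.Prime → q ∣ n → q ∈ P) ∧
        ∃ g ∈ Γ, y ^ n = (g : AlgebraicClosure ℚ)})

/-- the degree of `α` over the field `F` -/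
noncomputable def degree (F : IntermediateField ℚ (AlgebraicClosure ℚ)) (α : AlgebraicClosure ℚ) :
    ℕ :=
  (minpoly F α).natDegree

/-- the constant coefficient of the minimal polynomial of `ξ` over the field `F`, which is up to the
sign the norm of `ξ`, that is, the product of the conjugates of `ξ` over `F` -/
noncomputable def norm (F : IntermediateField ℚ (AlgebraicClosure ℚ)) (ξ : AlgebraicClosure ℚ) :
    AlgebraicClosure ℚ :=
  ((minpoly F ξ).coeff 0 : F)

lemma div_zpow {Γ : Subgroup (AlgebraicClosure ℚ)ˣ} {γ : AlgebraicClosure ℚ}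
    (h : InDivisionGroup Γ γ) (s : ℤ) : InDivisionGroup Γ (γ ^ s) := by
  obtain ⟨n, hn, g, hg, h1⟩ := h
  refine ⟨n, hn, g ^ s, zpow_mem hg s, ?_⟩
  rw [← zpow_natCast, ← zpow_mul, mul_comm, zpow_mul, zpow_natCast, h1, Units.val_zpow_eq_zpow_val]

lemma div_ne_zero' {Γ : Subgroup (AlgebraicClosure ℚ)ˣ} {γ : AlgebraicClosure ℚ}
    (h : InDivisionGroup Γ γ) : γ ≠ 0 := by
  obtain ⟨n, hn, g, -, h1⟩ := h
  rintro rfl
  rw [zero_pow hn.ne'] at h1
  exact g.ne_zero h1.symm

lemma zpow_sum' {ι : Type} (x : AlgebraicClosure ℚ) (hx : x ≠ 0) (S : Finset ι) (e : ι → ℤ) :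
    x ^ ∑ i ∈ S, e i = ∏ i ∈ S, x ^ e i := by
  classical
  induction S using Finset.induction_on with
  | empty => simp
  | insert i S hi ih => rw [Finset.prod_insert hi, Finset.sum_insert hi, zpow_add₀ hx, ih]

lemma key (K : IntermediateField ℚ (AlgebraicClosure ℚ)) (hK : FiniteDimensional ℚ K)
    (Γ : Subgroup (AlgebraicClosure ℚ)ˣ) (hΓ : Γ.FG) (P : Finset ℕ) (hP : ∀ p ∈ P, p.Prime) :
    ∃ A : ℕ, 0 < A ∧ ∀ F : IntermediateField ℚ (AlgebraicClosure ℚ),
      (∀ g ∈ Γ, (g : AlgebraicClosure ℚ) ∈ F) → ∀ ξ : AlgebraicClosure ℚ, ξ ≠ 0 →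
      ∀ (ι : Type) (s : Finset ι) (σ : ι → Aut), (∀ i ∈ s, Fix F (σ i)) → ∀ (e : ι → ℤ)
        (ω η : AlgebraicClosure ℚ), Tor ω → η = ω * ∏ i ∈ s, σ i ξ ^ e i →
        ¬ InDivisionGroup Γ η → ∀ γ : AlgebraicClosure ℚ, InDivisionGroup Γ γ →
        1 / ((A : ℝ) * (degree (smoothRootField K Γ P) η : ℝ) ^ A) ≤
          (∑ i ∈ s, |(e i : ℝ)|) * ht (ξ / γ) := by
  classical
  obtain ⟨A, hA, hmain⟩ := SmoothRootsPoly.result K hK Γ hΓ P hP
  refine ⟨A, hA, ?_⟩
  intro F hF ξ hξ ι s σ hσ e ω η hω hη hnd γ hγ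
  have hγ0 : γ ≠ 0 := div_ne_zero' hγ
  have hσξ : ∀ i, σ i ξ ≠ 0 := fun i => (map_ne_zero (σ i)).mpr hξ
  have hη0 : η ≠ 0 := by
    rw [hη]
    exact mul_ne_zero hω.ne_zero (Finset.prod_ne_zero_iff.2 fun i _ => zpow_ne_zero _ (hσξ i))
  have h1 := hmain η hη0 hnd (γ ^ ∑ i ∈ s, e i) (div_zpow hγ _)
  rw [Pool.Agent.H58P.absLogHeight₁_eq] at h1
  refine h1.trans ?_
  have h2 : η / γ ^ ∑ i ∈ s, e i = ω * ∏ i ∈ s, (σ i ξ / γ) ^ e i := by
    rw [hη, zpow_sum' γ hγ0 s e]
    simp_rw [_root_.div_zpow]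
    rw [Finset.prod_div_distrib, mul_div_assoc]
  rw [h2, ht_tor_mul hω]
  refine (Pool.Agent.H58R.ht_prod_le _ _).trans ?_
  rw [Finset.sum_mul]
  refine Finset.sum_le_sum fun i hi => ?_
  rw [Pool.Agent.H58R.ht_zpow _ (div_ne_zero (hσξ i) hγ0)]
  refine mul_le_mul_of_nonneg_left (le_of_eq ?_) (abs_nonneg _)
  have h3 : Tor (σ i γ / γ) := by
    obtain ⟨n, hn, g, hg, h4⟩ := hγ
    refine ⟨n, hn, ?_⟩
    rw [div_pow, ← map_pow, h4, hσ i hi _ (hF g hg), div_self]
    exact Units.ne_zero g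
  have h5 : σ i ξ / γ = (σ i γ / γ) * σ i (ξ / γ) := by
    have h6 : σ i γ ≠ 0 := (map_ne_zero (σ i)).mpr hγ0
    rw [map_div₀]
    field_simp
  rw [h5, ht_tor_mul h3, Pool.Agent.H58B.ht_conj]

/-- **Rémond's inequality in the strong form, for numbers with a product of conjugates of small
degree.** Let `K` be a number field, `Γ` a finitely generated subgroup of `ℚ̄*` and `P` a finite set
of primes, and let `E` be the field generated over `K` by all roots of unity and by all `n`-th roots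
of all elements of `Γ`, for all products `n` of primes of `P`. There is a positive integer `A`,
depending only on `K`, `Γ` and `P`, with the following property. Let `F` be any field which contains
`Γ`, let `ξ` be a nonzero algebraic number and let `η` be a product of powers `σ_i(ξ)^(e_i)` of
conjugates of `ξ` over `F` which does not lie in the division group of `Γ`. Then for every `γ` in the
division group of `Γ` (for example `γ = 1`), the height of `ξ / γ` is at least
`1 / (A [E(η) : E] ^ A)` divided by the sum of the `|e_i|`.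

In particular (`F = ℚ(Γ_div)`, `η` the norm of `ξ`): `D_Γ(ξ) h(ξ / γ) ≥ 1 / (A [E(η) : E] ^ A)`, where
`D_Γ(ξ)` is the degree of `ξ` over `ℚ(Γ_div)` and `η` is the constant coefficient of the minimal
polynomial of `ξ` over `ℚ(Γ_div)`, if `η` does not lie in the division group of `Γ`. -/
theorem result :
    ∀ (K : IntermediateField ℚ (AlgebraicClosure ℚ)), FiniteDimensional ℚ K →
    ∀ (Γ : Subgroup (AlgebraicClosure ℚ)ˣ), Γ.FG →
    ∀ (P : Finset ℕ), (∀ p ∈ P, p.Prime) →
      ∃ A : ℕ, 0 < A ∧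
        (∀ F : IntermediateField ℚ (AlgebraicClosure ℚ), (∀ g ∈ Γ, (g : AlgebraicClosure ℚ) ∈ F) →
          ∀ ξ : AlgebraicClosure ℚ, ξ ≠ 0 →
          ∀ (r : ℕ) (σ : Fin r → (AlgebraicClosure ℚ ≃ₐ[F] AlgebraicClosure ℚ)) (e : Fin r → ℤ),
            ¬ InDivisionGroup Γ (∏ i, σ i ξ ^ e i) →
            ∀ γ : AlgebraicClosure ℚ, InDivisionGroup Γ γ →
              1 / ((A : ℝ) *
                  (degree (smoothRootField K Γ P) (∏ i, σ i ξ ^ e i) : ℝ) ^ A) ≤
                (∑ i, |(e i : ℝ)|) * NumberField.absLogHeight₁ (ξ / γ)) ∧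
        ∀ ξ : AlgebraicClosure ℚ, ξ ≠ 0 → ¬ InDivisionGroup Γ (norm (divisionField Γ) ξ) →
          ∀ γ : AlgebraicClosure ℚ, InDivisionGroup Γ γ →
            1 / ((A : ℝ) *
                (degree (smoothRootField K Γ P) (norm (divisionField Γ) ξ) : ℝ) ^ A) ≤
              (degree (divisionField Γ) ξ : ℝ) * NumberField.absLogHeight₁ (ξ / γ) := by
  classical
  intro K hK Γ hΓ P hP
  obtain ⟨A, hA, h⟩ := key K hK Γ hΓ P hP
  refine ⟨A, hA, ?_, ?_⟩
  · intro F hF ξ hξ r σ e hnd γ hγ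
    rw [Pool.Agent.H58P.absLogHeight₁_eq]
    exact h F hF ξ hξ (Fin r) Finset.univ (fun i => (σ i).restrictScalars ℚ)
      (fun i _ x hx => (σ i).commutes ⟨x, hx⟩) e 1 _ ⟨1, one_pos, one_pow 1⟩
      (by rw [one_mul]; rfl) hnd γ hγ
  · intro ξ hξ hnd γ hγ
    rw [Pool.Agent.H58P.absLogHeight₁_eq]
    set L := divisionField Γ with hL
    have hΓL : ∀ g ∈ Γ, (g : AlgebraicClosure ℚ) ∈ L := fun g hg =>
      IntermediateField.subset_adjoin _ _ ⟨1, one_pos, g, hg, pow_one _⟩
    have hch : ∀ y : Qb, ∃ σ : Aut, y ∈ orb L ξ → Fix L σ ∧ σ ξ = y := by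
      intro y
      by_cases hy : y ∈ orb L ξ
      · obtain ⟨σ, h1, h2⟩ := hy
        exact ⟨σ, fun _ => ⟨h1, h2⟩⟩
      · exact ⟨1, fun h => absurd h hy⟩
    choose σ hσ using hch
    have hmem : ∀ y, y ∈ (orb_finite L ξ).toFinset ↔ y ∈ orb L ξ := fun y =>
      Set.Finite.mem_toFinset _
    have h2 : norm L ξ = ((-1 : Qb) ^ (orb_finite L ξ).toFinset.card) *
        ∏ y ∈ (orb_finite L ξ).toFinset, σ y ξ ^ ((fun _ : Qb => (1 : ℤ)) y) := by
      have h1 := minpoly_map_eq_oprod L ξ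
      have h3 : norm L ξ = ((minpoly L ξ).map (algebraMap L Qb)).coeff 0 := by
        rw [Polynomial.coeff_map]
        rfl
      rw [h3, h1, Polynomial.coeff_zero_prod, ← Finset.prod_const, ← Finset.prod_mul_distrib]
      refine Finset.prod_congr rfl fun y hy => ?_
      rw [(hσ y ((hmem y).1 hy)).2]
      simp
    have h4 := h L hΓL ξ hξ Qb (orb_finite L ξ).toFinset σ
      (fun y hy => (hσ y ((hmem y).1 hy)).1) (fun _ => 1)
      ((-1 : Qb) ^ (orb_finite L ξ).toFinset.card) (norm L ξ)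
      ⟨2, two_pos, by rw [← pow_mul, mul_comm, pow_mul]; norm_num⟩ h2 hnd γ hγ
    refine h4.trans (le_of_eq ?_)
    congr 1
    rw [Finset.sum_const, degree, ← orb_ncard, Set.ncard_eq_toFinset_card _ (orb_finite L ξ)]
    simp

end Pool.Agent.Results.MP_f61260_nt.ConjugateProducts
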